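import Mathlib
import Pool.Agent.Lib.ColorSearch

set_option autoImplicit false
set_option maxHeartbeats 4000000

namespace Pool.Agent.Results.MP_e06427_co.NotCritical

open Pool.Agent.ColorSearch

/-- `G` is `k`-critical: its chromatic number is `k` and every proper subgraph has smaller
chromatic number. -/
def IsCritical {V : Type} (k : ℕ) (G : SimpleGraph V) : Prop :=
  G.chromaticNumber = (k : ℕ∞) ∧
    ∀ H : G.Subgraph, H ≠ ⊤ → H.coe.chromaticNumber < (k : ℕ∞)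

/-- `G` arises from the `k`-critical graphs `G₁, G₂` by Dirac's generalisation of the Hajos
construction: `f₁, f₂` are the embeddings of the two vertex sets into the glued vertex set, the
images meet exactly in the common image of the complete subgraphs `H₁, H₂` on `h` vertices,
`x₁` is identified with `x₂`, the edges `x₁y₁`, `x₂y₂` are deleted and `y₁y₂` is added. -/
structure DiracConstruction (k h : ℕ) {V₁ V₂ V : Type} (G₁ : SimpleGraph V₁) (G₂ : SimpleGraph V₂)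
    (H₁ : Finset V₁) (H₂ : Finset V₂) (x₁ y₁ : V₁) (x₂ y₂ : V₂) (f₁ : V₁ → V) (f₂ : V₂ → V)
    (G : SimpleGraph V) : Prop where
  four_le : 4 ≤ k
  one_le : 1 ≤ h
  h_le : h ≤ k - 2
  crit₁ : IsCritical k G₁
  crit₂ : IsCritical k G₂
  clique₁ : G₁.IsNClique h H₁
  clique₂ : G₂.IsNClique h H₂
  x₁_mem : x₁ ∈ H₁
  x₂_mem : x₂ ∈ H₂
  y₁_notMem : y₁ ∉ H₁
  y₂_notMem : y₂ ∉ H₂
  adj₁ : G₁.Adj x₁ y₁
  adj₂ : G₂.Adj x₂ y₂
  inj₁ : Function.Injective f₁
  inj₂ : Function.Injective f₂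
  cover : Set.range f₁ ∪ Set.range f₂ = Set.univ
  overlap₁ : Set.range f₁ ∩ Set.range f₂ = f₁ '' (H₁ : Set V₁)
  overlap₂ : Set.range f₁ ∩ Set.range f₂ = f₂ '' (H₂ : Set V₂)
  glue_x : f₁ x₁ = f₂ x₂
  adj_iff : ∀ a b : V, G.Adj a b ↔
    ((∃ u v : V₁, G₁.Adj u v ∧ s(u, v) ≠ s(x₁, y₁) ∧ f₁ u = a ∧ f₁ v = b) ∨
     (∃ u v : V₂, G₂.Adj u v ∧ s(u, v) ≠ s(x₂, y₂) ∧ f₂ u = a ∧ f₂ v = b) ∨
     s(a, b) = s(f₁ y₁, f₂ y₂))

/-! ### the data -/

def M10 : List ℕ := [78, 917, 59, 245, 174, 860, 937, 90, 610, 354]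

def M17 : List ℕ := [1038, 117653, 7227, 245, 174, 860, 9128, 90, 610, 354, 30725, 21510, 109572,
  119872, 11266, 77826, 45058]

/-- `M17` without the edge `{1,2}` -/
def M17' : List ℕ := [1038, 117649, 7225, 245, 174, 860, 9128, 90, 610, 354, 30725, 21510, 109572,
  119872, 11266, 77826, 45058]

def cols : List (List ℕ) := [[0, 0, 1, 2, 3, 0, 3, 1, 1, 2], [0, 1, 0, 3, 2, 1, 2, 0, 0, 3],
  [0, 1, 2, 0, 3, 1, 3, 2, 0, 2], [0, 1, 2, 3, 0, 1, 0, 2, 2, 3], [0, 1, 1, 2, 0, 3, 1, 3, 0, 2],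
  [0, 1, 2, 3, 1, 0, 1, 0, 2, 3], [0, 1, 2, 3, 0, 1, 2, 1, 0, 3], [0, 1, 2, 1, 0, 3, 2, 3, 1, 0],
  [0, 1, 2, 1, 0, 3, 2, 3, 0, 1], [0, 1, 2, 2, 0, 3, 1, 3, 0, 2], [0, 1, 2, 3, 2, 0, 1, 0, 2, 3],
  [0, 1, 2, 3, 0, 2, 1, 2, 0, 3], [0, 1, 2, 3, 3, 0, 1, 0, 2, 3], [0, 1, 2, 1, 0, 1, 2, 3, 0, 3],
  [0, 1, 2, 1, 0, 3, 1, 2, 0, 2], [0, 1, 2, 3, 0, 1, 2, 3, 0, 3], [0, 1, 2, 3, 0, 0, 1, 2, 2, 3],
  [0, 1, 2, 3, 0, 1, 2, 0, 0, 3], [0, 1, 2, 1, 0, 3, 3, 2, 0, 2], [0, 1, 2, 1, 0, 3, 2, 3, 3, 0],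
  [0, 1, 2, 1, 0, 3, 2, 3, 0, 3], [0, 1, 2, 3, 0, 1, 2, 2, 0, 3], [0, 1, 2, 1, 0, 3, 2, 3, 2, 0],
  [0, 1, 2, 1, 0, 3, 2, 3, 0, 2], [0, 1, 2, 1, 0, 3, 2, 3, 0, 0]]

def c4 (t : List ℕ) (a : Fin 10) : Fin 4 := ⟨(t.getD a.val 0) % 4, Nat.mod_lt _ (by decide)⟩

def A10 : SimpleGraph (Fin 10) where
  Adj a b := adjM M10 a.val b.val = true
  symm := ⟨by decide +kernel⟩
  loopless := ⟨by decide +kernel⟩

def A17 : SimpleGraph (Fin 17) where
  Adj a b := adjM M17 a.val b.val = true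
  symm := ⟨by decide +kernel⟩
  loopless := ⟨by decide +kernel⟩

instance : DecidableRel A10.Adj := fun a b => inferInstanceAs (Decidable (adjM M10 a.val b.val = true))
instance : DecidableRel A17.Adj := fun a b => inferInstanceAs (Decidable (adjM M17 a.val b.val = true))

/-- the graph minus the edge `{1,2}` -/
def B17 : SimpleGraph (Fin 17) where
  Adj a b := adjM M17' a.val b.val = true
  symm := ⟨by decide +kernel⟩
  loopless := ⟨by decide +kernel⟩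

lemma lt5 {x : ℕ∞} (h : x < ((5 : ℕ) : ℕ∞)) : x ≤ ((4 : ℕ) : ℕ∞) := by
  have h' : x < ((4 : ℕ) : ℕ∞) + 1 := by
    have e : ((5 : ℕ) : ℕ∞) = ((4 : ℕ) : ℕ∞) + 1 := by norm_num
    rw [← e]; exact h
  exact ENat.lt_natCast_add_one_iff.1 h'

lemma not4_A10 : ¬ A10.Colorable 4 :=
  not_colorable (adjM M10) (by decide +kernel) A10 (fun _ _ h => h)

lemma not4_B17 : ¬ B17.Colorable 4 :=
  not_colorable (adjM M17') (by decide +kernel) B17 (fun _ _ h => h)

def c5 : Fin 10 → Fin 5 := ![0, 1, 2, 1, 0, 3, 2, 3, 0, 4]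

lemma col5_A10 : A10.Colorable 5 := by
  have h : ∀ a b : Fin 10, A10.Adj a b → c5 a ≠ c5 b := by decide +kernel
  exact ⟨SimpleGraph.Coloring.mk c5 (fun {a b} hab => h a b hab)⟩

lemma chrom_A10 : A10.chromaticNumber = ((5 : ℕ) : ℕ∞) := by
  apply le_antisymm
  · exact col5_A10.chromaticNumber_le
  · by_contra h
    push Not at h
    apply not4_A10
    rw [← SimpleGraph.chromaticNumber_le_iff_colorable]
    exact lt5 h

/-- for every edge there is a 4-colouring of the rest -/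
lemma edge_col : ∀ a b : Fin 10, A10.Adj a b → ∃ t ∈ cols,
    ∀ u v : Fin 10, A10.Adj u v → (s(u, v) ≠ s(a, b)) → c4 t u ≠ c4 t v := by
  decide +kernel

lemma no_isolated : ∀ a : Fin 10, ∃ b : Fin 10, A10.Adj a b := by decide +kernel

lemma crit_A10 : IsCritical 5 A10 := by
  refine ⟨chrom_A10, fun H hH => ?_⟩
  -- some edge is missing
  have hmiss : ∃ a b : Fin 10, A10.Adj a b ∧ ¬ H.Adj a b := by
    by_contra hcon
    push Not at hcon
    apply hH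
    ext a b
    · simp only [SimpleGraph.Subgraph.verts_top, Set.mem_univ, iff_true]
      obtain ⟨b, hb⟩ := no_isolated a
      exact H.edge_vert (hcon a b hb)
    · simp only [SimpleGraph.Subgraph.top_adj]
      exact ⟨fun h => H.adj_sub h, fun h => hcon a b h⟩
  obtain ⟨a, b, hab, hH'⟩ := hmiss
  obtain ⟨t, _, ht⟩ := edge_col a b hab
  have hcol : H.coe.Colorable 4 := by
    refine ⟨SimpleGraph.Coloring.mk (fun v => c4 t v.1) (fun {u v} huv => ?_)⟩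
    have huv' : H.Adj u.1 v.1 := huv
    apply ht _ _ (H.adj_sub huv')
    intro h
    rw [Sym2.eq_iff] at h
    rcases h with ⟨h1, h2⟩ | ⟨h1, h2⟩
    · rw [h1, h2] at huv'; exact hH' huv'
    · rw [h1, h2] at huv'; exact hH' huv'.symm
  refine lt_of_le_of_lt hcol.chromaticNumber_le ?_
  exact_mod_cast (by decide : 4 < 5)

def f1 : Fin 10 → Fin 17 := ![0, 1, 2, 3, 4, 5, 6, 7, 8, 9]
def f2 : Fin 10 → Fin 17 := ![0, 1, 2, 10, 11, 12, 13, 14, 15, 16]

lemma adj17 : ∀ a b : Fin 17, A17.Adj a b ↔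
    ((∃ u v : Fin 10, A10.Adj u v ∧ s(u, v) ≠ s(0, 6) ∧ f1 u = a ∧ f1 v = b) ∨
     (∃ u v : Fin 10, A10.Adj u v ∧ s(u, v) ≠ s(0, 6) ∧ f2 u = a ∧ f2 v = b) ∨
     s(a, b) = s(f1 6, f2 6)) := by
  decide +kernel

lemma f1_inj : Function.Injective f1 := by
  have : ∀ a b : Fin 10, f1 a = f1 b → a = b := by decide +kernel
  exact fun a b h => this a b h

lemma f2_inj : Function.Injective f2 := by
  have : ∀ a b : Fin 10, f2 a = f2 b → a = b := by decide +kernel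
  exact fun a b h => this a b h

lemma construction : DiracConstruction 5 3 A10 A10 {0, 1, 2} {0, 1, 2} 0 6 0 6 f1 f2 A17 where
  four_le := by decide
  one_le := by decide
  h_le := by decide
  crit₁ := crit_A10
  crit₂ := crit_A10
  clique₁ := by rw [SimpleGraph.is3Clique_triple_iff]; decide +kernel
  clique₂ := by rw [SimpleGraph.is3Clique_triple_iff]; decide +kernel
  x₁_mem := by decide
  x₂_mem := by decide
  y₁_notMem := by decide
  y₂_notMem := by decide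
  adj₁ := by decide +kernel
  adj₂ := by decide +kernel
  inj₁ := f1_inj
  inj₂ := f2_inj
  cover := by
    rw [Set.eq_univ_iff_forall]
    have : ∀ a : Fin 17, (∃ u, f1 u = a) ∨ (∃ u, f2 u = a) := by decide +kernel
    exact this
  overlap₁ := by
    ext a
    have : ∀ a : Fin 17, ((∃ u, f1 u = a) ∧ (∃ u, f2 u = a)) ↔
        ∃ u, u ∈ ({0, 1, 2} : Finset (Fin 10)) ∧ f1 u = a := by decide +kernel
    simpa using this a
  overlap₂ := by
    ext a
    have : ∀ a : Fin 17, ((∃ u, f1 u = a) ∧ (∃ u, f2 u = a)) ↔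
        ∃ u, u ∈ ({0, 1, 2} : Finset (Fin 10)) ∧ f2 u = a := by decide +kernel
    simpa using this a
  glue_x := by decide
  adj_iff := adj17

lemma not_crit : ¬ IsCritical 5 A17 := by
  rintro ⟨_, h⟩
  let H : A17.Subgraph := (⊤ : A17.Subgraph).deleteEdges {s(1, 2)}
  have h12 : A17.Adj 1 2 := by decide +kernel
  have hH : H ≠ ⊤ := by
    intro hh
    have h1 : H.Adj 1 2 := by rw [hh]; exact h12
    simp only [H, SimpleGraph.Subgraph.deleteEdges_adj] at h1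
    exact h1.2 rfl
  have hlt := h H hH
  have hcol : H.coe.Colorable 4 := by
    rw [← SimpleGraph.chromaticNumber_le_iff_colorable]
    exact lt5 hlt
  apply not4_B17
  obtain ⟨c⟩ := hcol
  have hv : ∀ v : Fin 17, v ∈ H.verts := fun v => by simp [H]
  refine ⟨SimpleGraph.Coloring.mk (fun v => c ⟨v, hv v⟩) (fun {u v} huv => ?_)⟩
  apply c.valid
  have key : ∀ u v : Fin 17, B17.Adj u v → (A17.Adj u v ∧ s(u, v) ≠ s(1, 2)) := by
    have : ∀ u v : Fin 17, adjM M17' u.val v.val = true →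
        (A17.Adj u v ∧ s(u, v) ≠ s(1, 2)) := by decide +kernel
    exact this
  have := key u v huv
  change H.Adj u v
  simp only [H, SimpleGraph.Subgraph.deleteEdges_adj, SimpleGraph.Subgraph.top_adj]
  exact ⟨this.1, this.2⟩

/-- Dirac's construction does not always produce a `k`-critical graph. -/
theorem result :
    ¬ ∀ (k h : ℕ) (V₁ V₂ V : Type) [Finite V₁] [Finite V₂] [Finite V]
      (G₁ : SimpleGraph V₁) (G₂ : SimpleGraph V₂) (H₁ : Finset V₁) (H₂ : Finset V₂)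
      (x₁ y₁ : V₁) (x₂ y₂ : V₂) (f₁ : V₁ → V) (f₂ : V₂ → V) (G : SimpleGraph V),
      DiracConstruction k h G₁ G₂ H₁ H₂ x₁ y₁ x₂ y₂ f₁ f₂ G → IsCritical k G := by
  intro h
  exact not_crit (h 5 3 _ _ _ A10 A10 _ _ 0 6 0 6 f1 f2 A17 construction)

end Pool.Agent.Results.MP_e06427_co.NotCritical
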